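import Pool.Agent.T2H64.Sync.Det

/-!
# The net
-/

set_option autoImplicit false
set_option linter.unusedVariables false

open Finset Real

namespace Pool.Agent.T2H64.Sync

variable {n : ℕ}

/-- the net of integer vectors -/
noncomputable def Net (n : ℕ) : Finset (Fin n → ℤ) :=
  (Fintype.piFinset (fun _ : Fin n => Finset.Icc (-(5 * n : ℤ)) (5 * n))).filter
    (fun k => ∑ i, (k i : ℝ) ^ 2 ≤ 21 * n)

lemma sum_Icc_le (L : ℕ) : ∑ j ∈ Finset.Icc (-(L : ℤ)) L, Real.exp (-((j : ℝ) ^ 2)) ≤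
    3 - 2 * (1 / 2 : ℝ) ^ L := by
  induction L with
  | zero => norm_num
  | succ L ih =>
    have hset : Finset.Icc (-((L + 1 : ℕ) : ℤ)) ((L + 1 : ℕ) : ℤ) =
        insert (-((L + 1 : ℕ) : ℤ)) (insert ((L + 1 : ℕ) : ℤ) (Finset.Icc (-(L : ℤ)) L)) := by
      ext j
      simp only [Finset.mem_Icc, Finset.mem_insert]
      push_cast
      omega
    rw [hset, sum_insert, sum_insert]
    · have h1 : Real.exp (-((((L + 1 : ℕ) : ℤ) : ℝ) ^ 2)) ≤ (1 / 2 : ℝ) ^ (L + 1) := by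
        have h2 : Real.exp (-1 : ℝ) ≤ 1 / 2 := by
          have := Real.exp_neg_one_lt_d9
          linarith
        calc Real.exp (-((((L + 1 : ℕ) : ℤ) : ℝ) ^ 2)) ≤ Real.exp (-1 * ((L + 1 : ℕ) : ℝ)) := by
              apply Real.exp_le_exp.2
              push_cast
              have : (0 : ℝ) ≤ L := Nat.cast_nonneg L
              nlinarith
          _ = Real.exp (-1) ^ (L + 1) := by
              rw [mul_comm, Real.exp_nat_mul]
          _ ≤ (1 / 2 : ℝ) ^ (L + 1) := pow_le_pow_left₀ (Real.exp_pos _).le h2 _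
      have h3 : Real.exp (-(((-((L + 1 : ℕ) : ℤ) : ℤ) : ℝ) ^ 2)) =
          Real.exp (-((((L + 1 : ℕ) : ℤ) : ℝ) ^ 2)) := by
        push_cast
        ring_nf
      rw [h3]
      have h4 : (1 / 2 : ℝ) ^ L = 2 * (1 / 2 : ℝ) ^ (L + 1) := by
        rw [pow_succ]; ring
      linarith
    · simp only [Finset.mem_Icc]
      push_cast
      omega
    · simp only [Finset.mem_Icc, Finset.mem_insert]
      push_cast
      omega

lemma card_Net (n : ℕ) : ((Net n).card : ℝ) ≤ Real.exp (23 * n) := by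
  have h1 : ((Net n).card : ℝ) ≤ ∑ k ∈ Net n, Real.exp (21 * n - ∑ i, (k i : ℝ) ^ 2) := by
    rw [Finset.card_eq_sum_ones]
    push_cast
    refine sum_le_sum fun k hk => ?_
    rw [Real.one_le_exp_iff]
    have := (Finset.mem_filter.1 hk).2
    linarith
  have h2 : ∑ k ∈ Net n, Real.exp (21 * n - ∑ i, (k i : ℝ) ^ 2) ≤
      ∑ k ∈ Fintype.piFinset (fun _ : Fin n => Finset.Icc (-(5 * n : ℤ)) (5 * n)),
        Real.exp (21 * n - ∑ i, (k i : ℝ) ^ 2) :=
    sum_le_sum_of_subset_of_nonneg (filter_subset _ _) fun _ _ _ => (Real.exp_pos _).le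
  have h3 : ∑ k ∈ Fintype.piFinset (fun _ : Fin n => Finset.Icc (-(5 * n : ℤ)) (5 * n)),
        Real.exp (21 * n - ∑ i, (k i : ℝ) ^ 2) =
      Real.exp (21 * n) * (∑ j ∈ Finset.Icc (-(5 * n : ℤ)) (5 * n), Real.exp (-((j : ℝ) ^ 2))) ^ n := by
    have e : ∀ k : Fin n → ℤ, Real.exp (21 * n - ∑ i, (k i : ℝ) ^ 2) =
        Real.exp (21 * n) * ∏ i, Real.exp (-((k i : ℝ) ^ 2)) := by
      intro k
      rw [← Real.exp_sum, ← Real.exp_add, sum_neg_distrib]
      ring_nf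
    simp only [e, ← mul_sum]
    congr 1
    rw [Finset.sum_prod_piFinset (Finset.Icc (-(5 * n : ℤ)) (5 * n))
      (fun (_ : Fin n) (j : ℤ) => Real.exp (-((j : ℝ) ^ 2)))]
    simp
  have h4 : ∑ j ∈ Finset.Icc (-(5 * n : ℤ)) (5 * n), Real.exp (-((j : ℝ) ^ 2)) ≤ Real.exp 2 := by
    have h5 := sum_Icc_le (5 * n)
    push_cast at h5
    have h6 : (0 : ℝ) < (1 / 2 : ℝ) ^ (5 * n) := by positivity
    have h7 : (3 : ℝ) ≤ Real.exp 2 := by
      have := Real.add_one_le_exp (2 : ℝ)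
      linarith
    linarith
  refine (h1.trans h2).trans ?_
  rw [h3]
  have h8 : 0 ≤ ∑ j ∈ Finset.Icc (-(5 * n : ℤ)) (5 * n), Real.exp (-((j : ℝ) ^ 2)) :=
    sum_nonneg fun _ _ => (Real.exp_pos _).le
  calc Real.exp (21 * n) * (∑ j ∈ Finset.Icc (-(5 * n : ℤ)) (5 * n), Real.exp (-((j : ℝ) ^ 2))) ^ n
      ≤ Real.exp (21 * n) * (Real.exp 2) ^ n := by
        apply mul_le_mul_of_nonneg_left _ (Real.exp_pos _).le
        exact pow_le_pow_left₀ h8 h4 n
    _ = Real.exp (23 * n) := by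
        rw [← Real.exp_nat_mul, ← Real.exp_add]
        ring_nf

/-- rounding -/
lemma round_net (hn : 0 < n) (x : Fin n → ℝ) (hx : ∑ i, x i ^ 2 ≤ 1) :
    ∃ k ∈ Net n, ∑ i, (x i - k i / (4 * √(n : ℝ))) ^ 2 ≤ 1 / 64 := by
  have hn' : (0 : ℝ) < n := by exact_mod_cast hn
  have hn1 : (1 : ℝ) ≤ n := by exact_mod_cast hn
  have hs : 0 < √(n : ℝ) := Real.sqrt_pos.2 hn'
  have hs2 : √(n : ℝ) * √(n : ℝ) = n := Real.mul_self_sqrt hn'.le
  have hs1 : √(n : ℝ) ≤ n := by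
    have : 1 ≤ √(n : ℝ) := by rw [Real.one_le_sqrt]; exact hn1
    nlinarith
  set X : Fin n → ℝ := fun i => 4 * √(n : ℝ) * x i with hX
  set k : Fin n → ℤ := fun i => round (X i) with hk
  have hr : ∀ i, |X i - k i| ≤ 1 / 2 := fun i => abs_sub_round (X i)
  have hr2 : ∀ i, (X i - k i) ^ 2 ≤ 1 / 4 := by
    intro i
    have := hr i
    rw [← sq_abs]
    nlinarith [abs_nonneg (X i - k i)]
  have hX2 : ∑ i, X i ^ 2 ≤ 16 * n := by
    have : ∑ i, X i ^ 2 = 16 * n * ∑ i, x i ^ 2 := by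
      rw [mul_sum]
      refine sum_congr rfl fun i _ => ?_
      rw [hX]
      have : (4 * √(n : ℝ) * x i) ^ 2 = 16 * (√(n : ℝ) * √(n : ℝ)) * x i ^ 2 := by ring
      rw [this, hs2]
    rw [this]
    nlinarith
  refine ⟨k, ?_, ?_⟩
  · unfold Net
    rw [mem_filter, Fintype.mem_piFinset]
    constructor
    · intro i
      rw [Finset.mem_Icc]
      have h1 : x i ^ 2 ≤ 1 := (single_le_sum (fun j _ => sq_nonneg (x j)) (mem_univ i)).trans hx
      have h2 : |x i| ≤ 1 := by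
        rw [← sq_le_one_iff_abs_le_one]; exact h1
      have h3 : |X i| ≤ 4 * n := by
        rw [hX]
        simp only [abs_mul, abs_of_pos hs]
        have h4 : |(4 : ℝ)| = 4 := by norm_num
        rw [h4]
        nlinarith [abs_nonneg (x i)]
      have h5 := hr i
      rw [abs_le] at h3 h5
      have h6 : (k i : ℝ) ≤ 5 * n := by linarith [h3.2, h5.1]
      have h7 : -(5 * n : ℝ) ≤ (k i : ℝ) := by linarith [h3.1, h5.2]
      constructor
      · exact_mod_cast h7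
      · exact_mod_cast h6
    · have h1 : ∀ i, (k i : ℝ) ^ 2 ≤ 9 / 8 * X i ^ 2 + 9 * (X i - k i) ^ 2 := by
        intro i
        nlinarith [sq_nonneg (X i / 8 - (k i - X i) )]
      calc ∑ i, (k i : ℝ) ^ 2 ≤ ∑ i, (9 / 8 * X i ^ 2 + 9 * (1 / 4)) := by
            refine sum_le_sum fun i _ => (h1 i).trans ?_
            have := hr2 i
            linarith
        _ = 9 / 8 * ∑ i, X i ^ 2 + n * (9 * (1 / 4)) := by
            rw [sum_add_distrib, ← mul_sum]
            simp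
        _ ≤ 21 * n := by linarith
  · have h1 : ∀ i, (x i - k i / (4 * √(n : ℝ))) ^ 2 ≤ 1 / (64 * n) := by
      intro i
      have e : x i - k i / (4 * √(n : ℝ)) = (X i - k i) / (4 * √(n : ℝ)) := by
        rw [hX]
        field_simp
      rw [e, div_pow, mul_pow, sq (√(n : ℝ)), hs2]
      rw [div_le_div_iff₀ (by positivity) (by positivity)]
      have := hr2 i
      nlinarith
    calc ∑ i, (x i - k i / (4 * √(n : ℝ))) ^ 2 ≤ ∑ i : Fin n, 1 / (64 * (n : ℝ)) :=
          sum_le_sum fun i _ => h1 i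
      _ = 1 / 64 := by
          simp
          field_simp

/-- the bilinear form -/
def B (W : Fin n → Fin n → ℝ) (x y : Fin n → ℝ) : ℝ := ∑ i, ∑ j, x i * W i j * y j

lemma B_add_left (W : Fin n → Fin n → ℝ) (x x' y : Fin n → ℝ) :
    B W (fun i => x i + x' i) y = B W x y + B W x' y := by
  unfold B
  rw [← sum_add_distrib]
  refine sum_congr rfl fun i _ => ?_
  rw [← sum_add_distrib]
  exact sum_congr rfl fun j _ => by ring

lemma B_add_right (W : Fin n → Fin n → ℝ) (x y y' : Fin n → ℝ) :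
    B W x (fun i => y i + y' i) = B W x y + B W x y' := by
  unfold B
  rw [← sum_add_distrib]
  refine sum_congr rfl fun i _ => ?_
  rw [← sum_add_distrib]
  exact sum_congr rfl fun j _ => by ring

lemma B_smul (W : Fin n → Fin n → ℝ) (x y : Fin n → ℝ) (a b : ℝ) :
    B W (fun i => a * x i) (fun i => b * y i) = a * b * B W x y := by
  unfold B
  rw [mul_sum]
  refine sum_congr rfl fun i _ => ?_
  rw [mul_sum]
  exact sum_congr rfl fun j _ => by ring

lemma exists_M (W : Fin n → Fin n → ℝ) : ∃ M : ℝ, 0 ≤ M ∧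
    (∀ x y : Fin n → ℝ, ∑ i, x i ^ 2 ≤ 1 → ∑ i, y i ^ 2 ≤ 1 → B W x y ≤ M) ∧
    ∀ M' : ℝ, (∀ x y : Fin n → ℝ, ∑ i, x i ^ 2 ≤ 1 → ∑ i, y i ^ 2 ≤ 1 → B W x y ≤ M') →
      M ≤ M' := by
  set S : Set ℝ := {r | ∃ x y : Fin n → ℝ, ∑ i, x i ^ 2 ≤ 1 ∧ ∑ i, y i ^ 2 ≤ 1 ∧ r = B W x y}
    with hS
  have hbd : BddAbove S := by
    refine ⟨∑ i, ∑ j, |W i j|, ?_⟩
    rintro r ⟨x, y, hx, hy, rfl⟩
    unfold B
    refine sum_le_sum fun i _ => sum_le_sum fun j _ => ?_
    have h1 : |x i| ≤ 1 := by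
      rw [← sq_le_one_iff_abs_le_one]
      exact (single_le_sum (fun j _ => sq_nonneg (x j)) (mem_univ i)).trans hx
    have h2 : |y j| ≤ 1 := by
      rw [← sq_le_one_iff_abs_le_one]
      exact (single_le_sum (fun j _ => sq_nonneg (y j)) (mem_univ j)).trans hy
    refine (le_abs_self _).trans ?_
    rw [abs_mul, abs_mul]
    calc |x i| * |W i j| * |y j| ≤ 1 * |W i j| * 1 := by
          apply mul_le_mul _ h2 (abs_nonneg _) (by positivity)
          exact mul_le_mul_of_nonneg_right h1 (abs_nonneg _)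
      _ = |W i j| := by ring
  have h0 : (0 : ℝ) ∈ S := ⟨fun _ => 0, fun _ => 0, by simp, by simp, by simp [B]⟩
  refine ⟨sSup S, le_csSup hbd h0, fun x y hx hy => le_csSup hbd ⟨x, y, hx, hy, rfl⟩, ?_⟩
  intro M' h
  refine csSup_le ⟨0, h0⟩ ?_
  rintro r ⟨x, y, hx, hy, rfl⟩
  exact h x y hx hy

lemma homog {W : Fin n → Fin n → ℝ} {M : ℝ} (hM : 0 ≤ M)
    (h : ∀ x y : Fin n → ℝ, ∑ i, x i ^ 2 ≤ 1 → ∑ i, y i ^ 2 ≤ 1 → B W x y ≤ M)
    (x y : Fin n → ℝ) : B W x y ≤ M * √(∑ i, x i ^ 2) * √(∑ i, y i ^ 2) := by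
  have hx0 : 0 ≤ ∑ i, x i ^ 2 := sum_nonneg fun i _ => sq_nonneg _
  have hy0 : 0 ≤ ∑ i, y i ^ 2 := sum_nonneg fun i _ => sq_nonneg _
  have hzero : ∀ z : Fin n → ℝ, √(∑ i, z i ^ 2) = 0 → z = fun _ => 0 := by
    intro z hz
    have hz0 : 0 ≤ ∑ i, z i ^ 2 := sum_nonneg fun i _ => sq_nonneg _
    rw [Real.sqrt_eq_zero hz0] at hz
    funext i
    have := (sum_eq_zero_iff_of_nonneg fun i _ => sq_nonneg (z i)).1 hz i (mem_univ i)
    exact pow_eq_zero_iff (two_ne_zero) |>.1 this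
  rcases (Real.sqrt_nonneg (∑ i, x i ^ 2)).eq_or_lt with hx | hx
  · rw [hzero x hx.symm]
    simp [B]
  rcases (Real.sqrt_nonneg (∑ i, y i ^ 2)).eq_or_lt with hy | hy
  · rw [hzero y hy.symm]
    simp [B]
  set a := √(∑ i, x i ^ 2) with ha
  set b := √(∑ i, y i ^ 2) with hb
  have h1 := h (fun i => a⁻¹ * x i) (fun i => b⁻¹ * y i)
    (by
      have : ∑ i, (a⁻¹ * x i) ^ 2 = (a⁻¹) ^ 2 * ∑ i, x i ^ 2 := by
        rw [mul_sum]; exact sum_congr rfl fun i _ => by ring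
      rw [this, ← Real.sq_sqrt hx0, ← ha]
      have : (a⁻¹) ^ 2 * a ^ 2 = 1 := by field_simp
      rw [this])
    (by
      have : ∑ i, (b⁻¹ * y i) ^ 2 = (b⁻¹) ^ 2 * ∑ i, y i ^ 2 := by
        rw [mul_sum]; exact sum_congr rfl fun i _ => by ring
      rw [this, ← Real.sq_sqrt hy0, ← hb]
      have : (b⁻¹) ^ 2 * b ^ 2 = 1 := by field_simp
      rw [this])
  rw [B_smul] at h1
  have h2 : a * b * (a⁻¹ * b⁻¹ * B W x y) = B W x y := by
    field_simp
  calc B W x y = a * b * (a⁻¹ * b⁻¹ * B W x y) := h2.symm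
    _ ≤ a * b * M := mul_le_mul_of_nonneg_left h1 (by positivity)
    _ = M * a * b := by ring

/-- a bound on the net gives a bound for the bilinear form -/
lemma bdd_of_net (hn : 0 < n) (W : Fin n → Fin n → ℝ) {t : ℝ}
    (h : ∀ k ∈ Net n, ∀ l ∈ Net n, B W (fun i => (k i : ℝ)) (fun i => (l i : ℝ)) ≤ t) :
    Bdd W (t / (8 * n)) := by
  have hn' : (0 : ℝ) < n := by exact_mod_cast hn
  have hs : 0 < √(n : ℝ) := Real.sqrt_pos.2 hn'
  have hs2 : √(n : ℝ) * √(n : ℝ) = n := Real.mul_self_sqrt hn'.le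
  obtain ⟨M, hM0, hM1, hM2⟩ := exists_M W
  have hhom := homog hM0 hM1
  have key : M ≤ M / 2 + t / (16 * n) := by
    apply hM2
    intro x y hx hy
    obtain ⟨k, hk, hk2⟩ := round_net hn x hx
    obtain ⟨l, hl, hl2⟩ := round_net hn y hy
    set r : Fin n → ℝ := fun i => x i - k i / (4 * √(n : ℝ)) with hr
    set r' : Fin n → ℝ := fun i => y i - l i / (4 * √(n : ℝ)) with hr'
    set k' : Fin n → ℝ := fun i => (4 * √(n : ℝ))⁻¹ * (k i : ℝ) with hk'
    set l' : Fin n → ℝ := fun i => (4 * √(n : ℝ))⁻¹ * (l i : ℝ) with hl'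
    have ex : x = fun i => r i + k' i := by
      funext i; rw [hr, hk']; simp only; ring
    have ey : y = fun i => r' i + l' i := by
      funext i; rw [hr', hl']; simp only; ring
    have e1 : B W x y = B W r y + B W k' r' + B W k' l' := by
      conv_lhs => rw [ex]
      rw [B_add_left]
      conv_lhs => rw [ey]
      rw [B_add_right W k' r' l', ← ey]
      ring
    have sq8 : √(∑ i, r i ^ 2) ≤ 1 / 8 := by
      rw [Real.sqrt_le_left (by norm_num)]
      refine hk2.trans (by norm_num)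
    have sq8' : √(∑ i, r' i ^ 2) ≤ 1 / 8 := by
      rw [Real.sqrt_le_left (by norm_num)]
      refine hl2.trans (by norm_num)
    have sqy : √(∑ i, y i ^ 2) ≤ 1 := by
      rw [Real.sqrt_le_left (by norm_num)]
      refine hy.trans (by norm_num)
    have sqk : √(∑ i, k' i ^ 2) ≤ 5 / 4 := by
      rw [Real.sqrt_le_left (by norm_num)]
      have h5 : ∑ i, k' i ^ 2 = (∑ i, (k i : ℝ) ^ 2) / (16 * n) := by
        rw [sum_div]
        refine sum_congr rfl fun i _ => ?_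
        rw [hk']
        have : ((4 * √(n : ℝ))⁻¹ * (k i : ℝ)) ^ 2 = (k i : ℝ) ^ 2 / (16 * (√(n : ℝ) * √(n : ℝ))) := by
          field_simp
          ring
        rw [this, hs2]
      rw [h5, div_le_iff₀ (by positivity)]
      have := (mem_filter.1 hk).2
      linarith
    have b1 : B W r y ≤ M * (1 / 8) * 1 := by
      refine (hhom r y).trans ?_
      gcongr
    have b2 : B W k' r' ≤ M * (5 / 4) * (1 / 8) := by
      refine (hhom k' r').trans ?_
      gcongr
    have b3 : B W k' l' ≤ t / (16 * n) := by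
      rw [hk', hl', B_smul]
      have e : (4 * √(n : ℝ))⁻¹ * (4 * √(n : ℝ))⁻¹ = 1 / (16 * n) := by
        have e2 : 4 * √(n : ℝ) * (4 * √(n : ℝ)) = 16 * n := by
          calc 4 * √(n : ℝ) * (4 * √(n : ℝ)) = 16 * (√(n : ℝ) * √(n : ℝ)) := by ring
            _ = 16 * n := by rw [hs2]
        rw [← mul_inv, e2, one_div]
      rw [e]
      calc 1 / (16 * (n : ℝ)) * B W (fun i => (k i : ℝ)) (fun i => (l i : ℝ)) ≤
          1 / (16 * (n : ℝ)) * t := mul_le_mul_of_nonneg_left (h k hk l hl) (by positivity)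
        _ = t / (16 * n) := by ring
    rw [e1]
    linarith
  have hMt : M ≤ t / (8 * n) := by
    have e : t / (8 * n) = 2 * (t / (16 * n)) := by
      field_simp
      ring
    rw [e]
    linarith
  intro x y
  refine (hhom x y).trans ?_
  gcongr

end Pool.Agent.T2H64.Sync
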