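import Pool.Agent.T2H64.Sync.Tail
import Pool.Agent.T2H64.Sync.Net

/-!
# The probability that the matrix is not globally synchronising
-/

set_option autoImplicit false
set_option linter.unusedVariables false

open Finset Real Filter Topology

namespace Pool.Agent.T2H64.Sync

/-- global synchrony -/
def Good {n : ℕ} (A : Fin n → Fin n → ℝ) : Prop :=
  ∀ θ : Fin n → ℝ, IsLocalMin (En A) θ → ∀ i j : Fin n, ∃ k : ℤ, θ i - θ j = 2 * Real.pi * (k : ℝ)

open Classical in
/-- the union bound -/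
lemma bad_le {n : ℕ} (hn : 0 < n) {δ u : ℝ} (h0 : 0 ≤ δ) (h1 : δ ≤ 1 / 2)
    (hα : 1220 * √(n : ℝ) ≤ 2 * δ * n) (hu : u ≤ 2 * δ * (n - 1) - 183 * √(n : ℝ) - 1)
    (hu0 : 0 < u) :
    ∑ s : Fin n → Fin n → Bool, (if Good (Am s) then 0 else wt n δ s) ≤
      Real.exp (-n) + n * Real.exp (-(u ^ 2 / (2 * n))) := by
  have hn' : (0 : ℝ) < n := by exact_mod_cast hn
  have hs : 0 < √(n : ℝ) := Real.sqrt_pos.2 hn'
  have hs2 : √(n : ℝ) * √(n : ℝ) = n := Real.mul_self_sqrt hn'.le
  set t : ℝ := 488 * n * √(n : ℝ) with ht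
  have hK : t / (8 * n) = 61 * √(n : ℝ) := by
    rw [ht]
    field_simp
    ring
  have hp : 0 < 2 * δ := by
    by_contra hc
    push Not at hc
    have : 2 * δ * n ≤ 0 := mul_nonpos_of_nonpos_of_nonneg hc hn'.le
    nlinarith
  -- pointwise
  have hpt : ∀ s : Fin n → Fin n → Bool, (if Good (Am s) then 0 else wt n δ s) ≤
      ∑ k ∈ Net n, ∑ l ∈ Net n, (if t < ∑ i, ∑ j, (k i : ℝ) * Wm (Am s) (2 * δ) i j * (l j : ℝ)
        then wt n δ s else 0) +
      ∑ i, (if ∑ j, Am s i j < 2 * δ * (n - 1) - u then wt n δ s else 0) := by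
    intro s
    have hw := wt_nonneg h0 h1 s
    have nn1 : 0 ≤ ∑ k ∈ Net n, ∑ l ∈ Net n, (if t < ∑ i, ∑ j, (k i : ℝ) *
        Wm (Am s) (2 * δ) i j * (l j : ℝ) then wt n δ s else 0) :=
      sum_nonneg fun k _ => sum_nonneg fun l _ => by split_ifs <;> simp [hw]
    have nn2 : 0 ≤ ∑ i, (if ∑ j, Am s i j < 2 * δ * (n - 1) - u then wt n δ s else 0) :=
      sum_nonneg fun k _ => by split_ifs <;> simp [hw]
    split_ifs with hg
    · positivity
    · by_cases hA : ∃ k ∈ Net n, ∃ l ∈ Net n,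
        t < ∑ i, ∑ j, (k i : ℝ) * Wm (Am s) (2 * δ) i j * (l j : ℝ)
      · obtain ⟨k, hk, l, hl, hkl⟩ := hA
        have h3 : wt n δ s ≤ ∑ k ∈ Net n, ∑ l ∈ Net n, (if t < ∑ i, ∑ j, (k i : ℝ) *
            Wm (Am s) (2 * δ) i j * (l j : ℝ) then wt n δ s else 0) := by
          calc wt n δ s = (if t < ∑ i, ∑ j, (k i : ℝ) *
            Wm (Am s) (2 * δ) i j * (l j : ℝ) then wt n δ s else 0) := by rw [if_pos hkl]
            _ ≤ ∑ l ∈ Net n, (if t < ∑ i, ∑ j, (k i : ℝ) *
            Wm (Am s) (2 * δ) i j * (l j : ℝ) then wt n δ s else 0) :=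
              single_le_sum (f := fun l : Fin n → ℤ => if t < ∑ i, ∑ j, (k i : ℝ) *
                Wm (Am s) (2 * δ) i j * (l j : ℝ) then wt n δ s else 0)
                (fun l _ => by split_ifs <;> simp [hw]) hl
            _ ≤ _ := single_le_sum (f := fun k : Fin n → ℤ => ∑ l ∈ Net n, if t < ∑ i, ∑ j,
                (k i : ℝ) * Wm (Am s) (2 * δ) i j * (l j : ℝ) then wt n δ s else 0)
                (fun k _ => sum_nonneg fun l _ => by split_ifs <;> simp [hw]) hk
        linarith
      · by_cases hB : ∃ i, ∑ j, Am s i j < 2 * δ * (n - 1) - u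
        · obtain ⟨i, hi⟩ := hB
          have h3 : wt n δ s ≤ ∑ i, (if ∑ j, Am s i j < 2 * δ * (n - 1) - u
              then wt n δ s else 0) := by
            calc wt n δ s = (if ∑ j, Am s i j < 2 * δ * (n - 1) - u then wt n δ s else 0) := by
                  rw [if_pos hi]
              _ ≤ _ := single_le_sum (f := fun i => if ∑ j, Am s i j < 2 * δ * (n - 1) - u
                  then wt n δ s else 0) (fun l _ => by split_ifs <;> simp [hw])
                  (mem_univ i)
          linarith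
        · exfalso
          push Not at hA hB
          apply hg
          have hbdd := bdd_of_net hn (Wm (Am s) (2 * δ)) (t := t) fun k hk l hl => hA k hk l hl
          rw [hK] at hbdd
          intro θ hθ
          refine sync hn (Am_symm s) (Am_diag s) hp (K := 61 * √(n : ℝ)) (by positivity) hbdd
            (by linarith) (fun i => ?_) hθ
          have := hB i
          linarith
  refine (sum_le_sum fun s _ => hpt s).trans ?_
  rw [sum_add_distrib]
  refine add_le_add ?_ ?_
  · rw [sum_comm]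
    have h3 : ∀ k ∈ Net n, ∑ s : Fin n → Fin n → Bool, ∑ l ∈ Net n,
        (if t < ∑ i, ∑ j, (k i : ℝ) * Wm (Am s) (2 * δ) i j * (l j : ℝ) then wt n δ s else 0) ≤
        (Net n).card * Real.exp (-47 * n) := by
      intro k hk
      rw [sum_comm, ← nsmul_eq_mul]
      refine sum_le_card_nsmul _ _ _ fun l hl => ?_
      have h4 := tail_bil h0 h1 (fun i => (k i : ℝ)) (fun i => (l i : ℝ)) (lam := 1 / √(n : ℝ))
        (t := t) (R := 21 * n) (mem_filter.1 hk).2 (mem_filter.1 hl).2 (by positivity)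
      refine h4.trans (le_of_eq ?_)
      congr 1
      rw [ht, div_pow, sq (√(n : ℝ)), hs2]
      field_simp
      ring
    have h5 := sum_le_card_nsmul (Net n) _ _ h3
    refine h5.trans ?_
    rw [nsmul_eq_mul]
    have h6 := card_Net n
    have h7 : (0 : ℝ) ≤ (Net n).card := Nat.cast_nonneg _
    calc ((Net n).card : ℝ) * ((Net n).card * Real.exp (-47 * n)) ≤
        Real.exp (23 * n) * (Real.exp (23 * n) * Real.exp (-47 * n)) := by gcongr
      _ = Real.exp (-n) := by
        rw [← Real.exp_add, ← Real.exp_add]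
        ring_nf
  · rw [sum_comm]
    have h3 : ∀ i ∈ (univ : Finset (Fin n)), ∑ s : Fin n → Fin n → Bool,
        (if ∑ j, Am s i j < 2 * δ * (n - 1) - u then wt n δ s else 0) ≤
        Real.exp (-(u ^ 2 / (2 * n))) := by
      intro i _
      have h4 := tail_row h0 h1 i (lam := u / n) (u := u) (by positivity)
      refine h4.trans (le_of_eq ?_)
      congr 1
      field_simp
      ring
    have h5 := sum_le_card_nsmul univ _ _ h3
    simpa using h5

open Classical in
theorem main (ε : ℝ) (hε : 0 < ε) (δ : ℕ → ℝ) (hδ : ∀ n : ℕ, 0 ≤ δ n ∧ δ n ≤ 1/2)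
    (hev : ∀ᶠ n : ℕ in Filter.atTop,
        (1 + ε) * Real.sqrt (Real.log ((n : ℕ) : ℝ) / (2 * ((n : ℕ) : ℝ))) ≤ δ n) :
    Tendsto (fun n : ℕ => ∑ s : Fin n → Fin n → Bool, if Good (Am s) then wt n (δ n) s else 0)
      atTop (𝓝 1) := by
  have hlog : Tendsto (fun n : ℕ => √(2 * Real.log n)) atTop atTop := by
    refine Real.tendsto_sqrt_atTop.comp ?_
    exact (Real.tendsto_log_atTop.comp tendsto_natCast_atTop_atTop).const_mul_atTop (by norm_num)
  have hbad : Tendsto (fun n : ℕ => ∑ s : Fin n → Fin n → Bool,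
      if Good (Am s) then 0 else wt n (δ n) s) atTop (𝓝 0) := by
    have hlim : Tendsto (fun n : ℕ => Real.exp (-(n : ℝ)) + (n : ℝ) ^ (-ε)) atTop (𝓝 (0 + 0)) := by
      refine Tendsto.add ?_ ?_
      · exact Real.tendsto_exp_neg_atTop_nhds_zero.comp tendsto_natCast_atTop_atTop
      · exact (tendsto_rpow_neg_atTop hε).comp tendsto_natCast_atTop_atTop
    rw [add_zero] at hlim
    refine squeeze_zero' (Eventually.of_forall fun n => sum_nonneg fun s _ => ?_) ?_ hlim
    · split_ifs
      · exact le_rfl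
      · exact wt_nonneg (hδ n).1 (hδ n).2 s
    filter_upwards [hev, hlog.eventually_ge_atTop 1220, hlog.eventually_ge_atTop (370 / ε),
      eventually_ge_atTop 1] with n h1 h2 h3 h4
    have hn' : (0 : ℝ) < n := by exact_mod_cast h4
    have hn1 : (1 : ℝ) ≤ n := by exact_mod_cast h4
    have hs : 0 < √(n : ℝ) := Real.sqrt_pos.2 hn'
    have hs1 : 1 ≤ √(n : ℝ) := by rw [Real.one_le_sqrt]; exact hn1
    have hs2 : √(n : ℝ) * √(n : ℝ) = n := Real.mul_self_sqrt hn'.le
    have hl0 : 0 ≤ Real.log n := Real.log_nonneg hn1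
    set L := √(2 * Real.log n) with hL
    have hL2 : L * L = 2 * Real.log n := Real.mul_self_sqrt (by positivity)
    -- 2 δ n ≥ (1 + ε) √n L
    have e1 : 2 * n * √(Real.log n / (2 * n)) = √(n : ℝ) * L := by
      rw [hL, ← Real.sqrt_mul hn'.le]
      have e2 : √((2 * (n : ℝ)) ^ 2) = 2 * n := Real.sqrt_sq (by positivity)
      calc 2 * n * √(Real.log n / (2 * n)) = √((2 * (n : ℝ)) ^ 2) * √(Real.log n / (2 * n)) := by
            rw [e2]
        _ = √((2 * (n : ℝ)) ^ 2 * (Real.log n / (2 * n))) := (Real.sqrt_mul (by positivity) _).symm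
        _ = √((n : ℝ) * (2 * Real.log n)) := by
            congr 1
            field_simp
    have h5 : (1 + ε) * (√(n : ℝ) * L) ≤ 2 * δ n * n := by
      rw [← e1]
      have := mul_le_mul_of_nonneg_right h1 (by positivity : (0 : ℝ) ≤ 2 * n)
      linarith
    have hsL : 0 ≤ √(n : ℝ) * L := by positivity
    have hα : 1220 * √(n : ℝ) ≤ 2 * δ n * n := by
      have : 1220 * √(n : ℝ) ≤ √(n : ℝ) * L := by
        rw [mul_comm]
        exact mul_le_mul_of_nonneg_left h2 hs.le
      nlinarith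
    set u := (1 + ε / 2) * (√(n : ℝ) * L) with hu
    have hu1 : u ≤ 2 * δ n * (n - 1) - 183 * √(n : ℝ) - 1 := by
      have h6 : ε / 2 * (√(n : ℝ) * L) ≥ 185 * √(n : ℝ) := by
        rw [ge_iff_le, div_le_iff₀ hε] at *
        nlinarith
      have h7 := (hδ n).2
      have h8 : 2 * δ n * (n - 1) = 2 * δ n * n - 2 * δ n := by ring
      rw [h8, hu]
      nlinarith
    have hu0 : 0 < u := by
      have : 0 < √(n : ℝ) * L := by
        have : 0 < L := by linarith
        positivity
      positivity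
    refine (bad_le h4 (hδ n).1 (hδ n).2 hα hu1 hu0).trans ?_
    have h9 : (n : ℝ) * Real.exp (-(u ^ 2 / (2 * n))) ≤ (n : ℝ) ^ (-ε) := by
      have e3 : u ^ 2 / (2 * n) = (1 + ε / 2) ^ 2 * Real.log n := by
        rw [hu]
        have : ((1 + ε / 2) * (√(n : ℝ) * L)) ^ 2 =
          (1 + ε / 2) ^ 2 * ((√(n : ℝ) * √(n : ℝ)) * (L * L)) := by ring
        rw [this, hs2, hL2]
        field_simp
      rw [e3]
      have e4 : (n : ℝ) * Real.exp (-((1 + ε / 2) ^ 2 * Real.log n)) =
          Real.exp (Real.log n - (1 + ε / 2) ^ 2 * Real.log n) := by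
        rw [sub_eq_add_neg, Real.exp_add, Real.exp_log hn']
      rw [e4, Real.rpow_def_of_pos hn']
      apply Real.exp_le_exp.2
      nlinarith [mul_nonneg hl0 (sq_nonneg ε)]
    linarith
  have h1 : ∀ n : ℕ, (∑ s : Fin n → Fin n → Bool, if Good (Am s) then wt n (δ n) s else 0) =
      1 - ∑ s : Fin n → Fin n → Bool, if Good (Am s) then 0 else wt n (δ n) s := by
    intro n
    rw [← sum_wt (n := n) (δ n), ← sum_sub_distrib]
    refine sum_congr rfl fun s _ => ?_
    split_ifs <;> simp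
  simp only [h1]
  simpa using hbad.const_sub 1

end Pool.Agent.T2H64.Sync
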