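import Mathlib

/-!
# Deterministic criterion for global synchronisation
-/

set_option autoImplicit false
set_option linter.unusedVariables false

open Finset Real

namespace Pool.Agent.T2H64.Sync

variable {n : ℕ}

/-- the energy -/
noncomputable def En (A : Fin n → Fin n → ℝ) (φ : Fin n → ℝ) : ℝ :=
  (1/2 : ℝ) * ∑ i : Fin n, ∑ j : Fin n, A i j * (1 - Real.cos (φ i - φ j))

/-- second difference inequality -/
lemma second_diff {A : Fin n → Fin n → ℝ} {θ : Fin n → ℝ} (h : IsLocalMin (En A) θ)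
    (x : Fin n → ℝ) : ∀ᶠ t : ℝ in nhds 0,
      0 ≤ ∑ i, ∑ j, A i j * Real.cos (θ i - θ j) * (1 - Real.cos (t * (x i - x j))) := by
  have hc : Filter.Tendsto (fun t : ℝ => θ + t • x) (nhds 0) (nhds θ) := by
    have : Continuous (fun t : ℝ => θ + t • x) := by fun_prop
    have h2 := this.tendsto 0
    simpa using h2
  have hc' : Filter.Tendsto (fun t : ℝ => θ - t • x) (nhds 0) (nhds θ) := by
    have : Continuous (fun t : ℝ => θ - t • x) := by fun_prop
    have h2 := this.tendsto 0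
    simpa using h2
  filter_upwards [hc.eventually h, hc'.eventually h] with t h1 h2
  have key : En A (θ + t • x) + En A (θ - t • x) - 2 * En A θ =
      ∑ i, ∑ j, A i j * Real.cos (θ i - θ j) * (1 - Real.cos (t * (x i - x j))) := by
    unfold En
    rw [← mul_add, ← sum_add_distrib]
    have : ∀ i, (∑ j, A i j * (1 - Real.cos ((θ + t • x) i - (θ + t • x) j))) +
        (∑ j, A i j * (1 - Real.cos ((θ - t • x) i - (θ - t • x) j))) =
        2 * (∑ j, A i j * (1 - Real.cos (θ i - θ j))) +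
        2 * ∑ j, A i j * Real.cos (θ i - θ j) * (1 - Real.cos (t * (x i - x j))) := by
      intro i
      rw [← sum_add_distrib, mul_sum, mul_sum, ← sum_add_distrib]
      refine sum_congr rfl fun j _ => ?_
      have e1 : (θ + t • x) i - (θ + t • x) j = (θ i - θ j) + t * (x i - x j) := by
        simp only [Pi.add_apply, Pi.smul_apply, smul_eq_mul]; ring
      have e2 : (θ - t • x) i - (θ - t • x) j = (θ i - θ j) - t * (x i - x j) := by
        simp only [Pi.sub_apply, Pi.smul_apply, smul_eq_mul]; ring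
      rw [e1, e2, Real.cos_add (θ i - θ j) (t * (x i - x j)),
        Real.cos_sub (θ i - θ j) (t * (x i - x j))]
      generalize Real.cos (θ i - θ j) = a
      generalize Real.sin (θ i - θ j) = b
      ring
    simp only [this, sum_add_distrib, ← mul_sum]
    ring
  rw [← key]
  linarith

/-- the quadratic form of second derivatives is nonnegative at a local minimum -/
lemma hess {A : Fin n → Fin n → ℝ} {θ : Fin n → ℝ} (h : IsLocalMin (En A) θ)
    (x : Fin n → ℝ) : 0 ≤ ∑ i, ∑ j, A i j * Real.cos (θ i - θ j) * (x i - x j) ^ 2 := by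
  have h1 := second_diff h x
  -- (1 - cos (t y)) / t^2 tends to y^2 / 2
  have lim : ∀ y : ℝ, Filter.Tendsto (fun t : ℝ => 2 * (1 - Real.cos (t * y)) / t ^ 2)
      (nhdsWithin 0 {0}ᶜ) (nhds (y ^ 2)) := by
    intro y
    by_cases hy : y = 0
    · subst hy
      simp
    have hs : Filter.Tendsto (fun t : ℝ => Real.sinc (t * y / 2)) (nhdsWithin 0 {0}ᶜ) (nhds 1) := by
      have : Continuous (fun t : ℝ => Real.sinc (t * y / 2)) :=
        Real.continuous_sinc.comp (by fun_prop)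
      have h2 := (this.tendsto 0).mono_left (nhdsWithin_le_nhds (s := {0}ᶜ))
      simpa using h2
    have h3 := (hs.pow 2).const_mul (y ^ 2)
    rw [one_pow, mul_one] at h3
    refine h3.congr' ?_
    filter_upwards [self_mem_nhdsWithin] with t ht
    have ht0 : t ≠ 0 := ht
    have h4 : t * y / 2 ≠ 0 := by
      have := mul_ne_zero ht0 hy
      positivity
    rw [Real.sinc_of_ne_zero h4]
    have h5 : 1 - Real.cos (t * y) = 2 * Real.sin (t * y / 2) ^ 2 := by
      have := Real.cos_two_mul (t * y / 2)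
      have h6 := Real.sin_sq_add_cos_sq (t * y / 2)
      have h7 : 2 * (t * y / 2) = t * y := by ring
      rw [h7] at this
      rw [this]; linarith
    rw [h5]
    field_simp
  have lim2 : Filter.Tendsto (fun t : ℝ => ∑ i, ∑ j, A i j * Real.cos (θ i - θ j) *
      (2 * (1 - Real.cos (t * (x i - x j))) / t ^ 2)) (nhdsWithin 0 {0}ᶜ)
      (nhds (∑ i, ∑ j, A i j * Real.cos (θ i - θ j) * (x i - x j) ^ 2)) :=
    tendsto_finsetSum _ fun i _ => tendsto_finsetSum _ fun j _ => (lim _).const_mul _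
  refine ge_of_tendsto lim2 ?_
  filter_upwards [h1.filter_mono nhdsWithin_le_nhds, self_mem_nhdsWithin] with t ht ht0
  have ht0' : t ≠ 0 := ht0
  have e : ∑ i, ∑ j, A i j * Real.cos (θ i - θ j) * (2 * (1 - Real.cos (t * (x i - x j))) / t ^ 2) =
      2 / t ^ 2 * ∑ i, ∑ j, A i j * Real.cos (θ i - θ j) * (1 - Real.cos (t * (x i - x j))) := by
    rw [mul_sum]
    refine sum_congr rfl fun i _ => ?_
    rw [mul_sum]
    refine sum_congr rfl fun j _ => ?_
    field_simp
  rw [e]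
  positivity

/-- first order condition -/
lemma first {A : Fin n → Fin n → ℝ} (hsym : ∀ i j, A i j = A j i) {θ : Fin n → ℝ}
    (h : IsLocalMin (En A) θ) (i : Fin n) : ∑ j, A i j * Real.sin (θ i - θ j) = 0 := by
  have hc : Continuous (fun t : ℝ => θ + t • (Pi.single i (1 : ℝ) : Fin n → ℝ)) := by fun_prop
  have h1 : IsLocalMin (fun t : ℝ => En A (θ + t • (Pi.single i (1 : ℝ) : Fin n → ℝ))) 0 := by
    have h2 : IsLocalMin (En A) ((fun t : ℝ => θ + t • (Pi.single i (1 : ℝ) : Fin n → ℝ)) 0) := by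
      simpa using h
    exact IsLocalMin.comp_continuous (g := fun t : ℝ => θ + t • (Pi.single i (1 : ℝ) : Fin n → ℝ))
      h2 hc.continuousAt
  have hd : HasDerivAt (fun t : ℝ => En A (θ + t • (Pi.single i (1 : ℝ) : Fin n → ℝ)))
      ((1/2 : ℝ) * ∑ k, ∑ j, A k j * (Real.sin (θ k - θ j) *
        ((Pi.single i (1 : ℝ) : Fin n → ℝ) k - (Pi.single i (1 : ℝ) : Fin n → ℝ) j))) 0 := by
    unfold En
    refine HasDerivAt.const_mul _ ?_
    refine HasDerivAt.fun_sum fun k _ => HasDerivAt.fun_sum fun j _ => HasDerivAt.const_mul _ ?_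
    have e : ∀ t : ℝ, (θ + t • (Pi.single i (1 : ℝ) : Fin n → ℝ)) k -
        (θ + t • (Pi.single i (1 : ℝ) : Fin n → ℝ)) j = (θ k - θ j) +
        t * ((Pi.single i (1 : ℝ) : Fin n → ℝ) k - (Pi.single i (1 : ℝ) : Fin n → ℝ) j) := by
      intro t
      simp only [Pi.add_apply, Pi.smul_apply, smul_eq_mul]; ring
    simp only [e]
    have h3 : HasDerivAt (fun t : ℝ => (θ k - θ j) +
        t * ((Pi.single i (1 : ℝ) : Fin n → ℝ) k - (Pi.single i (1 : ℝ) : Fin n → ℝ) j))
        ((Pi.single i (1 : ℝ) : Fin n → ℝ) k - (Pi.single i (1 : ℝ) : Fin n → ℝ) j) 0 := by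
      simpa using ((hasDerivAt_id (0 : ℝ)).mul_const
        ((Pi.single i (1 : ℝ) : Fin n → ℝ) k - (Pi.single i (1 : ℝ) : Fin n → ℝ) j)).const_add
          (θ k - θ j)
    have h4 := (h3.cos).const_sub 1
    simpa using h4
  have h0 := h1.hasDerivAt_eq_zero hd
  have e2 : ∑ k, ∑ j, A k j * (Real.sin (θ k - θ j) *
        ((Pi.single i (1 : ℝ) : Fin n → ℝ) k - (Pi.single i (1 : ℝ) : Fin n → ℝ) j)) =
      2 * ∑ j, A i j * Real.sin (θ i - θ j) := by
    have e3 : ∀ k j, A k j * (Real.sin (θ k - θ j) *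
        ((Pi.single i (1 : ℝ) : Fin n → ℝ) k - (Pi.single i (1 : ℝ) : Fin n → ℝ) j)) =
        (if k = i then A k j * Real.sin (θ k - θ j) else 0) +
        (if j = i then A j k * Real.sin (θ j - θ k) else 0) := by
      intro k j
      have hs : Real.sin (θ j - θ k) = - Real.sin (θ k - θ j) := by
        rw [← Real.sin_neg]; ring_nf
      rw [hsym j k, hs]
      simp only [Pi.single_apply]
      split_ifs <;> ring
    simp only [e3, sum_add_distrib]
    rw [sum_comm (f := fun k j => if j = i then A j k * Real.sin (θ j - θ k) else 0)]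
    simp only [Finset.sum_ite_irrel, Finset.sum_const_zero, Finset.sum_ite_eq', Finset.mem_univ,
      if_true]
    ring
  rw [e2] at h0
  linarith

/-- second order condition for one coordinate -/
lemma second {A : Fin n → Fin n → ℝ} (hsym : ∀ i j, A i j = A j i) (hdiag : ∀ i, A i i = 0)
    {θ : Fin n → ℝ}
    (h : IsLocalMin (En A) θ) (i : Fin n) : 0 ≤ ∑ j, A i j * Real.cos (θ i - θ j) := by
  have h1 := hess h (Pi.single i (1 : ℝ))
  have e3 : ∀ k j, A k j * Real.cos (θ k - θ j) *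
        ((Pi.single i (1 : ℝ) : Fin n → ℝ) k - (Pi.single i (1 : ℝ) : Fin n → ℝ) j) ^ 2 =
        (if k = i then A k j * Real.cos (θ k - θ j) else 0) +
        (if j = i then A j k * Real.cos (θ j - θ k) else 0) := by
    intro k j
    have hs : Real.cos (θ j - θ k) = Real.cos (θ k - θ j) := by
      rw [← Real.cos_neg]; ring_nf
    rw [hsym j k, hs]
    simp only [Pi.single_apply]
    split_ifs with h1 h2
    · rw [h1, h2, hdiag]; simp
    · ring
    · ring
    · ring
  simp only [e3, sum_add_distrib] at h1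
  rw [sum_comm (f := fun k j => if j = i then A j k * Real.cos (θ j - θ k) else 0)] at h1
  simp only [Finset.sum_ite_irrel, Finset.sum_const_zero, Finset.sum_ite_eq', Finset.mem_univ,
      if_true] at h1
  linarith

/-- the unit vector inequality -/
lemma unit_ineq {T κ η ζ c s : ℝ} (hT : 0 < T) (hκ : 0 ≤ κ) (hcs : c ^ 2 + s ^ 2 = 1)
    (h1 : κ * c = T + η) (h2 : κ * s = ζ) : T ^ 2 * (2 - 2 * c) ≤ 4 * (η ^ 2 + ζ ^ 2) := by
  have e1 : η = κ * c - T := by linarith
  rw [e1, ← h2]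
  have e2 : 4 * ((κ * c - T) ^ 2 + (κ * s) ^ 2) - T ^ 2 * (2 - 2 * c) =
      4 * κ ^ 2 * (c ^ 2 + s ^ 2) - 8 * κ * T * c + 2 * T ^ 2 + 2 * T ^ 2 * c := by ring
  rw [hcs] at e2
  have hc1 : c ≤ 1 := by nlinarith [sq_nonneg s]
  have hc2 : -1 ≤ c := by nlinarith [sq_nonneg s]
  rcases le_total (-(1/2)) c with h | h
  · have : 0 ≤ 4 * (κ - T * c) ^ 2 + 2 * T ^ 2 * ((1 - c) * (1 + 2 * c)) := by
      have : 0 ≤ (1 - c) * (1 + 2 * c) := mul_nonneg (by linarith) (by linarith)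
      positivity
    nlinarith
  · have h3 : 0 ≤ 8 * κ * T * (-c) := by
      have : 0 ≤ -c := by linarith
      positivity
    have h4 : 0 ≤ 2 * T ^ 2 * (1 + c) := by
      have : 0 ≤ 1 + c := by linarith
      positivity
    nlinarith [sq_nonneg κ]

/-- the noise -/
def Wm (A : Fin n → Fin n → ℝ) (p : ℝ) (i j : Fin n) : ℝ := A i j - if i = j then 0 else p

/-- the bilinear form of `W` is bounded by `K` -/
def Bdd (W : Fin n → Fin n → ℝ) (K : ℝ) : Prop :=
  ∀ x y : Fin n → ℝ, ∑ i, ∑ j, x i * W i j * y j ≤ K * √(∑ i, x i ^ 2) * √(∑ i, y i ^ 2)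

lemma Bdd.apply_sq {W : Fin n → Fin n → ℝ} {K : ℝ} (hK : 0 ≤ K) (h : Bdd W K) (x : Fin n → ℝ) :
    ∑ i, (∑ j, W i j * x j) ^ 2 ≤ K ^ 2 * ∑ i, x i ^ 2 := by
  have h1 := h (fun i => ∑ j, W i j * x j) x
  have e : ∑ i, ∑ j, (∑ j, W i j * x j) * W i j * x j = ∑ i, (∑ j, W i j * x j) ^ 2 := by
    refine sum_congr rfl fun i _ => ?_
    rw [sq, mul_sum]
    refine sum_congr rfl fun j _ => by ring
  simp only [e] at h1
  set a := ∑ i, (∑ j, W i j * x j) ^ 2 with ha
  set b := ∑ i, x i ^ 2 with hb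
  have ha0 : 0 ≤ a := sum_nonneg fun i _ => sq_nonneg _
  have hb0 : 0 ≤ b := sum_nonneg fun i _ => sq_nonneg _
  have h2 : √a * √a = a := Real.mul_self_sqrt ha0
  have h3 : √b * √b = b := Real.mul_self_sqrt hb0
  rcases (Real.sqrt_nonneg a).eq_or_lt with h4 | h4
  · rw [← h4] at h2
    have : 0 ≤ K ^ 2 * b := by positivity
    linarith
  · have h5 : √a ≤ K * √b := by
      by_contra hc
      push Not at hc
      have : K * √a * √b < a := by
        calc K * √a * √b = √a * (K * √b) := by ring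
          _ < √a * √a := by exact mul_lt_mul_of_pos_left hc h4
          _ = a := h2
      linarith
    calc a = √a * √a := h2.symm
      _ ≤ (K * √b) * (K * √b) := mul_self_le_mul_self h4.le h5
      _ = K ^ 2 * (√b * √b) := by ring
      _ = K ^ 2 * b := by rw [h3]

lemma Bdd.abs_quad {W : Fin n → Fin n → ℝ} {K : ℝ} (h : Bdd W K) (x : Fin n → ℝ) :
    |∑ i, ∑ j, x i * W i j * x j| ≤ K * ∑ i, x i ^ 2 := by
  have hb0 : 0 ≤ ∑ i, x i ^ 2 := sum_nonneg fun i _ => sq_nonneg _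
  have h3 : √(∑ i, x i ^ 2) * √(∑ i, x i ^ 2) = ∑ i, x i ^ 2 := Real.mul_self_sqrt hb0
  rw [abs_le]
  constructor
  · have h1 := h (fun i => - x i) x
    have e : ∑ i, ∑ j, (-x i) * W i j * x j = - ∑ i, ∑ j, x i * W i j * x j := by
      rw [← sum_neg_distrib]
      refine sum_congr rfl fun i _ => ?_
      rw [← sum_neg_distrib]
      refine sum_congr rfl fun j _ => by ring
    rw [e] at h1
    simp only [neg_sq] at h1
    rw [mul_assoc K, h3] at h1
    linarith
  · have h1 := h x x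
    rw [mul_assoc K, h3] at h1
    exact h1

lemma quad_split (A : Fin n → Fin n → ℝ) (p : ℝ) (x y : Fin n → ℝ) :
    ∑ i, ∑ j, x i * A i j * y j = p * (∑ i, x i) * (∑ j, y j) - p * ∑ i, x i * y i +
      ∑ i, ∑ j, x i * Wm A p i j * y j := by
  have e : ∀ i j, x i * A i j * y j = p * (x i * y j) - (if i = j then p * (x i * y i) else 0) +
      x i * Wm A p i j * y j := by
    intro i j
    unfold Wm
    split_ifs with h
    · subst h; ring
    · ring
  simp only [e, sum_add_distrib, sum_sub_distrib]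
  congr 2
  · rw [mul_assoc, sum_mul_sum, mul_sum]
    refine sum_congr rfl fun i _ => ?_
    rw [mul_sum]
  · simp [mul_sum]

lemma row_split (A : Fin n → Fin n → ℝ) (p : ℝ) (y : Fin n → ℝ)
    (i : Fin n) :
    ∑ j, A i j * y j = p * (∑ j, y j) - p * y i + ∑ j, Wm A p i j * y j := by
  have e : ∀ j, A i j * y j = p * y j - (if i = j then p * y i else 0) + Wm A p i j * y j := by
    intro j
    unfold Wm
    split_ifs with h
    · subst h; ring
    · ring
  simp only [e, sum_add_distrib, sum_sub_distrib, ← mul_sum]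
  simp

lemma num1 {p n K X : ℝ} (hp : 0 < p) (hn : 0 < n) (h : p * n ^ 2 / 2 - 2 * K * n ≤ p * X ^ 2)
    (hα : 20 * K ≤ p * n) : (2 / 5 : ℝ) * n ^ 2 ≤ X ^ 2 := by
  have h3 : 20 * K * n ≤ p * n * n := mul_le_mul_of_nonneg_right hα hn.le
  have h4 : p * ((2 / 5 : ℝ) * n ^ 2) ≤ p * X ^ 2 := by
    have e : p * n * n = p * n ^ 2 := by ring
    rw [e] at h3
    linarith
  exact le_of_mul_le_mul_left h4 hp

lemma num2 {p n K X E : ℝ} (hp : 0 < p) (hn : 0 < n) (hX2 : (2 / 5 : ℝ) * n ^ 2 ≤ X ^ 2)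
    (hE0 : 0 ≤ E) (st2 : (p * X) ^ 2 * E ≤ 4 * K ^ 2 * n) : p ^ 2 * n * E ≤ 10 * K ^ 2 := by
  have h3 : p ^ 2 * ((2 / 5 : ℝ) * n ^ 2) * E ≤ (p * X) ^ 2 * E := by
    rw [mul_pow]
    apply mul_le_mul_of_nonneg_right _ hE0
    apply mul_le_mul_of_nonneg_left hX2 (by positivity)
  have h4 : (2 / 5 : ℝ) * n * (p ^ 2 * n * E) ≤ (2 / 5 : ℝ) * n * (10 * K ^ 2) := by
    have e1 : (2 / 5 : ℝ) * n * (p ^ 2 * n * E) = p ^ 2 * ((2 / 5 : ℝ) * n ^ 2) * E := by ring
    have e2 : (2 / 5 : ℝ) * n * (10 * K ^ 2) = 4 * K ^ 2 * n := by ring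
    rw [e1, e2]
    exact h3.trans st2
  exact le_of_mul_le_mul_left h4 (by positivity)

lemma num3 {p n K E : ℝ} (hp : 0 < p) (hn : 0 < n) (hK : 0 < K) (hα : 20 * K ≤ p * n)
    (hE0 : 0 ≤ E) (hE2 : p ^ 2 * n * E ≤ 10 * K ^ 2) : p * E ≤ K / 2 := by
  have h0 : 0 ≤ p * E := by positivity
  have h4 : 20 * K * (p * E) ≤ 10 * K ^ 2 := by
    calc 20 * K * (p * E) ≤ p * n * (p * E) := mul_le_mul_of_nonneg_right hα h0
      _ = p ^ 2 * n * E := by ring
      _ ≤ _ := hE2
  have h5 : 20 * K * (p * E) ≤ 20 * K * (K / 2) := by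
    have : 20 * K * (K / 2) = 10 * K ^ 2 := by ring
    rw [this]; exact h4
  exact le_of_mul_le_mul_left h5 (by positivity)

lemma num4 {K E : ℝ} (hK : 0 < K) (h : (5 / 2 * K) ^ 2 * E ≤ 4 * K ^ 2 * E) : E ≤ 0 := by
  by_contra hc
  push Not at hc
  have : 0 < K ^ 2 * E := by positivity
  have e : (5 / 2 * K) ^ 2 * E = 25 / 4 * (K ^ 2 * E) := by ring
  rw [e] at h
  have e2 : 4 * K ^ 2 * E = 4 * (K ^ 2 * E) := by ring
  rw [e2] at h
  linarith

lemma le_one_of {c s : ℝ} (h : c ^ 2 + s ^ 2 = 1) : c ≤ 1 := by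
  nlinarith [sq_nonneg s, sq_nonneg (c - 1)]

/-- the deviation -/
lemma dev {A : Fin n → Fin n → ℝ} {p K : ℝ}
    (hp : 0 < p) (hK : 0 < K) (hW : Bdd (Wm A p) K) (c s lam : Fin n → ℝ)
    (hcs : ∀ i, c i ^ 2 + s i ^ 2 = 1)
    (hlam : ∀ i, 0 ≤ lam i)
    (h2 : ∀ i, ∑ j, A i j * s j = lam i * s i) (hs0 : ∑ i, s i = 0)
    (c' : Fin n → ℝ) (T : ℝ) (hT0 : 0 < T)
    (hT' : ∀ i, ∃ T' : ℝ, T ≤ T' ∧ (lam i + p) * c i = T' + ∑ j, Wm A p i j * c' j) :
    T ^ 2 * (2 * (n - ∑ i, c i)) ≤ 4 * K ^ 2 * (∑ i, c' i ^ 2 + ∑ i, s i ^ 2) := by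
  have e1 : ∀ i, T ^ 2 * (2 - 2 * c i) ≤
      4 * ((∑ j, Wm A p i j * c' j) ^ 2 + (∑ j, Wm A p i j * s j) ^ 2) := by
    intro i
    obtain ⟨T', hTT', h5⟩ := hT' i
    have h6 : (lam i + p) * s i = ∑ j, Wm A p i j * s j := by
      have h7 := row_split A p s i
      rw [h2, hs0] at h7
      linarith
    have h8 := unit_ineq (lt_of_lt_of_le hT0 hTT') (by linarith [hlam i] : 0 ≤ lam i + p)
      (hcs i) h5 h6
    have h9 : c i ≤ 1 := le_one_of (hcs i)
    refine le_trans ?_ h8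
    apply mul_le_mul_of_nonneg_right _ (by linarith)
    exact pow_le_pow_left₀ hT0.le hTT' 2
  have e2 := sum_le_sum fun i (_ : i ∈ (univ : Finset (Fin n))) => e1 i
  rw [← mul_sum, ← mul_sum, sum_add_distrib] at e2
  have e3 : ∑ i, (2 - 2 * c i) = 2 * (n - ∑ i, c i) := by
    rw [sum_sub_distrib, ← mul_sum]
    simp only [sum_const, card_univ, Fintype.card_fin, nsmul_eq_mul]
    ring
  rw [e3] at e2
  have e4 := hW.apply_sq hK.le c'
  have e5 := hW.apply_sq hK.le s
  refine e2.trans ?_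
  have e6 : 4 * K ^ 2 * (∑ i, c' i ^ 2 + ∑ i, s i ^ 2) =
      4 * (K ^ 2 * ∑ i, c' i ^ 2 + K ^ 2 * ∑ i, s i ^ 2) := by ring
  rw [e6]
  linarith

lemma lin1 {p n K X C2 S2 C4 S4 CS Q w1 w2 w3 w4 w5 : ℝ} (hp : 0 < p)
    (hT : p * C2 * C2 - p * C4 + w3 + (p * S2 * S2 - p * S4 + w4) +
      2 * (p * Q * Q - p * CS + w5) ≤ p * X * X - p * C2 + w1 + (p * 0 * 0 - p * S2 + w2))
    (sumc2 : C2 + S2 = n) (t3 : C4 + S4 + 2 * CS = n)
    (b1 : |w1| ≤ K * C2) (b2 : |w2| ≤ K * S2) (b3 : |w3| ≤ K * C4) (b4 : |w4| ≤ K * S4)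
    (b5 : |w5| ≤ K * CS) : p * n ^ 2 / 2 - 2 * K * n ≤ p * X ^ 2 := by
  rw [abs_le] at b1 b2 b3 b4 b5
  have e1 : p * n ^ 2 / 2 ≤ p * C2 * C2 + p * S2 * S2 := by
    rw [← sumc2]
    have h6 : 0 ≤ p * (C2 - S2) ^ 2 := mul_nonneg hp.le (sq_nonneg _)
    have e : p * (C2 - S2) ^ 2 = 2 * (p * C2 * C2 + p * S2 * S2) -
      p * (C2 + S2) ^ 2 := by ring
    linarith
  have e2 : 0 ≤ p * Q * Q := by
    have := mul_self_nonneg Q
    rw [mul_assoc]
    exact mul_nonneg hp.le this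
  have e3 : K * C4 + K * S4 + 2 * (K * CS) = K * n := by rw [← t3]; ring
  have e4 : K * C2 + K * S2 = K * n := by rw [← sumc2]; ring
  have e5 : p * C4 + p * S4 + 2 * (p * CS) = p * n := by rw [← t3]; ring
  have e6 : p * C2 + p * S2 = p * n := by rw [← sumc2]; ring
  have e7 : p * X * X = p * X ^ 2 := by ring
  have e8 : p * 0 * 0 = 0 := by ring
  have e9 : 2 * K * n = 2 * (K * n) := by ring
  rw [e7, e8] at hT
  rw [e9]
  linarith [b1.2, b2.2, b3.1, b4.1, b5.1]

/-- the core argument -/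
theorem core {A : Fin n → Fin n → ℝ} (hn : 0 < n) {p K : ℝ}
    (hp : 0 < p) (hK : 0 < K) (hW : Bdd (Wm A p) K) (hα : 20 * K ≤ p * n)
    (hD : ∀ i, 3 * K < ∑ j, A i j) (c s lam : Fin n → ℝ) (hcs : ∀ i, c i ^ 2 + s i ^ 2 = 1)
    (hlam : ∀ i, 0 ≤ lam i) (h1 : ∀ i, ∑ j, A i j * c j = lam i * c i)
    (h2 : ∀ i, ∑ j, A i j * s j = lam i * s i) (hs0 : ∑ i, s i = 0) (hc0 : 0 ≤ ∑ i, c i)
    (hT : ∑ i, ∑ j, A i j * (c i * c j + s i * s j) ^ 2 ≤
      ∑ i, ∑ j, A i j * (c i * c j + s i * s j)) : ∀ i, c i = 1 := by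
  have hn' : (0 : ℝ) < n := by exact_mod_cast hn
  have hpn : 0 < p * n := by positivity
  set X := ∑ i, c i with hX
  have sumone : ∑ i : Fin n, (c i ^ 2 + s i ^ 2) = n := by
    simp [hcs]
  have sumc2 : ∑ i, c i ^ 2 + ∑ i, s i ^ 2 = n := by
    rw [← sum_add_distrib]; exact sumone
  -- step 1
  have q1 := quad_split A p c c
  have q2 := quad_split A p s s
  have q3 := quad_split A p (fun i => c i ^ 2) (fun i => c i ^ 2)
  have q4 := quad_split A p (fun i => s i ^ 2) (fun i => s i ^ 2)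
  have q5 := quad_split A p (fun i => c i * s i) (fun i => c i * s i)
  have b1 := hW.abs_quad c
  have b2 := hW.abs_quad s
  have b3 := hW.abs_quad (fun i => c i ^ 2)
  have b4 := hW.abs_quad (fun i => s i ^ 2)
  have b5 := hW.abs_quad (fun i => c i * s i)
  have t1 : ∑ i, ∑ j, A i j * (c i * c j + s i * s j) =
      ∑ i, ∑ j, c i * A i j * c j + ∑ i, ∑ j, s i * A i j * s j := by
    rw [← sum_add_distrib]
    refine sum_congr rfl fun i _ => ?_
    rw [← sum_add_distrib]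
    exact sum_congr rfl fun j _ => by ring
  have t2 : ∑ i, ∑ j, A i j * (c i * c j + s i * s j) ^ 2 =
      ∑ i, ∑ j, (c i ^ 2) * A i j * (c j ^ 2) + ∑ i, ∑ j, (s i ^ 2) * A i j * (s j ^ 2) +
      2 * ∑ i, ∑ j, (c i * s i) * A i j * (c j * s j) := by
    rw [← sum_add_distrib, mul_sum, ← sum_add_distrib]
    refine sum_congr rfl fun i _ => ?_
    rw [← sum_add_distrib, mul_sum, ← sum_add_distrib]
    exact sum_congr rfl fun j _ => by ring
  have t3 : ∑ i, (c i ^ 2) ^ 2 + ∑ i, (s i ^ 2) ^ 2 + 2 * ∑ i, (c i * s i) ^ 2 = n := by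
    rw [← sum_add_distrib, mul_sum, ← sum_add_distrib]
    have : ∀ i, (c i ^ 2) ^ 2 + (s i ^ 2) ^ 2 + 2 * (c i * s i) ^ 2 = 1 := by
      intro i
      have : (c i ^ 2) ^ 2 + (s i ^ 2) ^ 2 + 2 * (c i * s i) ^ 2 = (c i ^ 2 + s i ^ 2) ^ 2 := by ring
      rw [this, hcs]; norm_num
    simp [this]
  have hsq : ∀ f : Fin n → ℝ, ∑ i, f i * f i = ∑ i, f i ^ 2 := fun f =>
    sum_congr rfl fun i _ => by ring
  have step1 : p * n ^ 2 / 2 - 2 * K * n ≤ p * X ^ 2 := by
    rw [t1, t2, q1, q2, q3, q4, q5] at hT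
    simp only [hsq] at hT
    rw [hs0] at hT
    exact lin1 hp hT sumc2 t3 b1 b2 b3 b4 b5
  have hXn : X ≤ n := by
    calc X ≤ ∑ i : Fin n, (1 : ℝ) := sum_le_sum fun i _ => le_one_of (hcs i)
      _ = n := by simp
  have hX2 : (2 / 5 : ℝ) * n ^ 2 ≤ X ^ 2 := num1 hp hn' step1 hα
  have hXpos : 0 < X := by
    rcases hc0.eq_or_lt with h | h
    · rw [← h] at hX2
      have : 0 < (2 / 5 : ℝ) * (n : ℝ) ^ 2 := by positivity
      norm_num at hX2
      linarith
    · exact h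
  -- step 2
  have st2 := dev hp hK hW c s lam hcs hlam h2 hs0 c (p * X) (by positivity)
    fun i => ⟨p * X, le_rfl, by
      have h7 := row_split A p c i
      rw [h1] at h7
      linarith⟩
  rw [sumc2, ← hX] at st2
  -- step 3
  set E := 2 * ((n : ℝ) - X) with hE
  have hE0 : 0 ≤ E := by linarith
  have hE2 : p ^ 2 * n * E ≤ 10 * K ^ 2 := num2 hp hn' hX2 hE0 st2
  have hpE : p * E ≤ K / 2 := num3 hp hn' hK hα hE0 hE2
  have st3 := dev hp hK hW c s lam hcs hlam h2 hs0 (fun i => c i - 1) (5 / 2 * K) (by positivity)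
    fun i => ⟨∑ j, A i j + p - p * (E / 2), by
      have := hD i
      have e : p * (E / 2) = p * E / 2 := by ring
      rw [e]
      linarith, by
      have h7 := row_split A p c i
      have h8 := row_split A p (fun _ => 1) i
      rw [h1] at h7
      simp only [mul_one, sum_const, card_univ, Fintype.card_fin, nsmul_eq_mul] at h8
      have h9 : ∑ j, Wm A p i j * (c j - 1) = ∑ j, Wm A p i j * c j - ∑ j, Wm A p i j := by
        rw [← sum_sub_distrib]
        exact sum_congr rfl fun j _ => by ring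
      rw [h9, h8, hE]
      have : p * (2 * ((n : ℝ) - X) / 2) = p * n - p * X := by ring
      rw [this]
      linarith⟩
  have e6 : ∑ i, (c i - 1) ^ 2 + ∑ i, s i ^ 2 = E := by
    rw [← sum_add_distrib]
    have : ∀ i, (c i - 1) ^ 2 + s i ^ 2 = 2 - 2 * c i := by
      intro i
      have := hcs i
      linear_combination this
    simp only [this]
    rw [sum_sub_distrib, ← mul_sum]
    simp only [sum_const, card_univ, Fintype.card_fin, nsmul_eq_mul]
    rw [hE]
    ring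
  rw [e6, ← hX, ← hE] at st3
  have hEz : E ≤ 0 := num4 hK st3
  have hE00 : ∑ i, (c i - 1) ^ 2 = 0 := by
    have h3 : 0 ≤ ∑ i, (c i - 1) ^ 2 := sum_nonneg fun i _ => sq_nonneg _
    have h4 : 0 ≤ ∑ i, s i ^ 2 := sum_nonneg fun i _ => sq_nonneg _
    linarith
  intro i
  have h5 := (sum_eq_zero_iff_of_nonneg fun i _ => sq_nonneg (c i - 1)).1 hE00 i (mem_univ i)
  have h6 := pow_eq_zero_iff (two_ne_zero) |>.1 h5
  linarith

/-- **Deterministic criterion.** -/
theorem sync {A : Fin n → Fin n → ℝ} (hn : 0 < n) (hsym : ∀ i j, A i j = A j i)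
    (hdiag : ∀ i, A i i = 0) {p K : ℝ}
    (hp : 0 < p) (hK : 0 < K) (hW : Bdd (Wm A p) K) (hα : 20 * K ≤ p * n)
    (hD : ∀ i, 3 * K < ∑ j, A i j) {θ : Fin n → ℝ} (h : IsLocalMin (En A) θ) :
    ∀ i j : Fin n, ∃ k : ℤ, θ i - θ j = 2 * Real.pi * (k : ℝ) := by
  obtain ⟨φ, hφ1, hφ2⟩ : ∃ φ : ℝ, ∑ i, Real.sin (θ i - φ) = 0 ∧ 0 ≤ ∑ i, Real.cos (θ i - φ) := by
    set Z : ℂ := ⟨∑ i, Real.cos (θ i), ∑ i, Real.sin (θ i)⟩ with hZ
    refine ⟨Complex.arg Z, ?_, ?_⟩
    · have e : ∑ i, Real.sin (θ i - Complex.arg Z) =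
          Z.im * Real.cos (Complex.arg Z) - Z.re * Real.sin (Complex.arg Z) := by
        rw [hZ]
        simp only [Real.sin_sub, sum_sub_distrib, ← sum_mul]
      rw [e, ← Complex.norm_mul_cos_arg Z, ← Complex.norm_mul_sin_arg Z]
      ring
    · have e : ∑ i, Real.cos (θ i - Complex.arg Z) =
          Z.re * Real.cos (Complex.arg Z) + Z.im * Real.sin (Complex.arg Z) := by
        rw [hZ]
        simp only [Real.cos_sub, sum_add_distrib, ← sum_mul]
      rw [e, ← Complex.norm_mul_cos_arg Z, ← Complex.norm_mul_sin_arg Z]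
      have : ‖Z‖ * Real.cos Z.arg * Real.cos Z.arg + ‖Z‖ * Real.sin Z.arg * Real.sin Z.arg =
          ‖Z‖ * (Real.cos Z.arg ^ 2 + Real.sin Z.arg ^ 2) := by ring
      rw [this, Real.cos_sq_add_sin_sq]
      simp
  set c : Fin n → ℝ := fun i => Real.cos (θ i - φ) with hc
  set s : Fin n → ℝ := fun i => Real.sin (θ i - φ) with hs
  have hcs : ∀ i, c i ^ 2 + s i ^ 2 = 1 := fun i => Real.cos_sq_add_sin_sq _
  have hcos : ∀ i j, Real.cos (θ i - θ j) = c i * c j + s i * s j := by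
    intro i j
    have : θ i - θ j = (θ i - φ) - (θ j - φ) := by ring
    rw [this, Real.cos_sub]
  have hsin : ∀ i j, Real.sin (θ i - θ j) = s i * c j - c i * s j := by
    intro i j
    have : θ i - θ j = (θ i - φ) - (θ j - φ) := by ring
    rw [this, Real.sin_sub]
  have hF : ∀ i, s i * (∑ j, A i j * c j) - c i * (∑ j, A i j * s j) = 0 := by
    intro i
    have := first hsym h i
    rw [← this, mul_sum, mul_sum, ← sum_sub_distrib]
    refine sum_congr rfl fun j _ => ?_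
    rw [hsin]; ring
  have hS : ∀ i, 0 ≤ c i * (∑ j, A i j * c j) + s i * (∑ j, A i j * s j) := by
    intro i
    have := second hsym hdiag h i
    refine this.trans (le_of_eq ?_)
    rw [mul_sum, mul_sum, ← sum_add_distrib]
    refine sum_congr rfl fun j _ => ?_
    rw [hcos]; ring
  have hTx := hess h c
  have hTy := hess h s
  have hc1 := core hn hp hK hW hα hD c s
    (fun i => c i * (∑ j, A i j * c j) + s i * (∑ j, A i j * s j)) hcs hS
    (by
      intro i
      have h1 := hF i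
      have h2 := hcs i
      linear_combination (s i) * h1 - (∑ j, A i j * c j) * h2)
    (by
      intro i
      have h1 := hF i
      have h2 := hcs i
      linear_combination (- c i) * h1 - (∑ j, A i j * s j) * h2)
    hφ1 hφ2
    (by
      have h3 := add_nonneg hTx hTy
      have e : ∑ i, ∑ j, A i j * Real.cos (θ i - θ j) * (c i - c j) ^ 2 +
          ∑ i, ∑ j, A i j * Real.cos (θ i - θ j) * (s i - s j) ^ 2 =
          2 * (∑ i, ∑ j, A i j * (c i * c j + s i * s j) -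
            ∑ i, ∑ j, A i j * (c i * c j + s i * s j) ^ 2) := by
        rw [← sum_add_distrib, ← sum_sub_distrib, mul_sum]
        refine sum_congr rfl fun i _ => ?_
        rw [← sum_add_distrib, ← sum_sub_distrib, mul_sum]
        refine sum_congr rfl fun j _ => ?_
        rw [hcos]
        have h1 := hcs i
        have h2 := hcs j
        linear_combination (A i j * (c i * c j + s i * s j)) * h1 +
          (A i j * (c i * c j + s i * s j)) * h2
      rw [e] at h3
      linarith)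
  intro i j
  have h3 := hc1 i
  have h4 := hc1 j
  have h5 : Real.cos (θ i - θ j) = 1 := by
    have s1 : s i = 0 := by
      have := hcs i
      rw [h3] at this
      nlinarith
    rw [hcos, h3, h4, s1]
    ring
  rw [Real.cos_eq_one_iff] at h5
  obtain ⟨k, hk⟩ := h5
  exact ⟨k, by rw [← hk]; ring⟩

end Pool.Agent.T2H64.Sync
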