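import Mathlib

/-!
# Random symmetric sign matrices: moment generating functions
-/

set_option autoImplicit false

open Finset Real

namespace Pool.Agent.T2H64.Sync

open MeasureTheory ProbabilityTheory in
/-- Hoeffding's lemma for a biased sign. -/
lemma hoeff {δ : ℝ} (h0 : 0 ≤ δ) (h1 : δ ≤ 1 / 2) (a : ℝ) :
    (1 / 2 + δ) * Real.exp (a * (1 - 2 * δ)) + (1 / 2 - δ) * Real.exp (a * (-1 - 2 * δ)) ≤
      Real.exp (a ^ 2 / 2) := by
  set μ : Measure Bool := ENNReal.ofReal (1 / 2 + δ) • Measure.dirac true +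
    ENNReal.ofReal (1 / 2 - δ) • Measure.dirac false with hμ
  have hprob : IsProbabilityMeasure μ := by
    refine ⟨?_⟩
    rw [hμ]
    simp only [Measure.coe_add, Measure.coe_smul, Pi.add_apply, Pi.smul_apply, measure_univ,
      smul_eq_mul, mul_one]
    rw [← ENNReal.ofReal_add (by linarith) (by linarith)]
    norm_num
  have hint : ∀ f : Bool → ℝ, ∫ b, f b ∂μ = (1 / 2 + δ) * f true + (1 / 2 - δ) * f false := by
    intro f
    rw [hμ, integral_add_measure ((integrable_dirac (by simp)).smul_measure (by simp))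
      ((integrable_dirac (by simp)).smul_measure (by simp)),
      integral_smul_measure, integral_smul_measure, integral_dirac, integral_dirac,
      ENNReal.toReal_ofReal (by linarith), ENNReal.toReal_ofReal (by linarith)]
    rfl
  set X : Bool → ℝ := fun b => (if b = true then (1 : ℝ) else -1) - 2 * δ with hX
  have hsub := hasSubgaussianMGF_of_mem_Icc_of_integral_eq_zero (μ := μ) (X := X)
    (a := -1 - 2 * δ) (b := 1 - 2 * δ) (measurable_of_finite X).aemeasurable
    (Filter.Eventually.of_forall fun b => by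
      rw [hX]
      cases b
      · simp
      · simp)
    (by
      rw [hint]
      simp only [hX]
      norm_num
      ring)
  have h3 := hsub.mgf_le a
  unfold mgf at h3
  rw [hint] at h3
  simp only [hX] at h3
  norm_num at h3
  have e : a ^ 2 / 2 = a ^ 2 / 2 := rfl
  convert h3 using 2

variable {n : ℕ}

/-- the weight of a sign pattern -/
noncomputable def wt (n : ℕ) (δ : ℝ) (s : Fin n → Fin n → Bool) : ℝ :=
  ∏ i : Fin n, ∏ j : Fin n,
    (if i < j then (if s i j = true then (1/2 : ℝ) + δ else (1/2 : ℝ) - δ) else (1/2 : ℝ))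

lemma wt_nonneg {δ : ℝ} (h0 : 0 ≤ δ) (h1 : δ ≤ 1 / 2) (s : Fin n → Fin n → Bool) :
    0 ≤ wt n δ s := by
  unfold wt
  refine prod_nonneg fun i _ => prod_nonneg fun j _ => ?_
  split_ifs <;> linarith

/-- factorisation -/
lemma sum_prod (g : Fin n → Fin n → Bool → ℝ) :
    ∑ s : Fin n → Fin n → Bool, ∏ i, ∏ j, g i j (s i j) = ∏ i, ∏ j, ∑ b : Bool, g i j b := by
  have h1 : ∀ i, ∏ j, ∑ b : Bool, g i j b = ∑ r : Fin n → Bool, ∏ j, g i j (r j) := by
    intro i
    rw [Finset.prod_univ_sum, Fintype.piFinset_univ]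
  simp only [h1]
  rw [Finset.prod_univ_sum, Fintype.piFinset_univ]

lemma sum_wt (δ : ℝ) : ∑ s, wt n δ s = 1 := by
  unfold wt
  rw [sum_prod (fun i j b => if i < j then (if b = true then (1/2 : ℝ) + δ else (1/2 : ℝ) - δ)
    else (1/2 : ℝ))]
  refine prod_eq_one fun i _ => prod_eq_one fun j _ => ?_
  rw [Fintype.sum_bool]
  by_cases h : i < j
  · simp only [h, if_true]
    simp only [Bool.false_eq_true, if_false]
    ring
  · simp only [h, if_false]
    norm_num

/-- the centred sign -/
noncomputable def xi (δ : ℝ) (b : Bool) : ℝ := (if b = true then (1 : ℝ) else -1) - 2 * δ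

/-- moment generating function of a linear form -/
lemma mgf_le {δ : ℝ} (h0 : 0 ≤ δ) (h1 : δ ≤ 1 / 2) (a : Fin n → Fin n → ℝ) :
    ∑ s, wt n δ s * Real.exp (∑ i, ∑ j, if i < j then a i j * xi δ (s i j) else 0) ≤
      Real.exp (∑ i, ∑ j, if i < j then a i j ^ 2 / 2 else 0) := by
  have e : ∀ s : Fin n → Fin n → Bool,
      wt n δ s * Real.exp (∑ i, ∑ j, if i < j then a i j * xi δ (s i j) else 0) =
      ∏ i, ∏ j, (if i < j then (if s i j = true then (1/2 : ℝ) + δ else (1/2 : ℝ) - δ) *
        Real.exp (a i j * xi δ (s i j)) else (1/2 : ℝ)) := by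
    intro s
    unfold wt
    rw [Real.exp_sum, ← prod_mul_distrib]
    refine prod_congr rfl fun i _ => ?_
    rw [Real.exp_sum, ← prod_mul_distrib]
    refine prod_congr rfl fun j _ => ?_
    split_ifs <;> simp
  simp only [e]
  rw [sum_prod (fun i j b => if i < j then (if b = true then (1/2 : ℝ) + δ else (1/2 : ℝ) - δ) *
        Real.exp (a i j * xi δ b) else (1/2 : ℝ))]
  rw [Real.exp_sum]
  have hpos : ∀ i j, 0 ≤ ∑ b : Bool, (if i < j then (if b = true then (1/2 : ℝ) + δ
      else (1/2 : ℝ) - δ) * Real.exp (a i j * xi δ b) else (1/2 : ℝ)) := by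
    intro i j
    refine sum_nonneg fun b _ => ?_
    split_ifs
    · exact mul_nonneg (by linarith) (Real.exp_pos _).le
    · exact mul_nonneg (by linarith) (Real.exp_pos _).le
    · norm_num
  refine prod_le_prod (fun i _ => prod_nonneg fun j _ => hpos i j) fun i _ => ?_
  rw [Real.exp_sum]
  refine prod_le_prod (fun j _ => hpos i j) fun j _ => ?_
  rw [Fintype.sum_bool]
  by_cases h : i < j
  · have h3 := hoeff h0 h1 (a i j)
    simp only [h, if_true, xi]
    simp only [Bool.false_eq_true, if_false]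
    exact h3
  · simp only [h, if_false, Real.exp_zero]
    norm_num

end Pool.Agent.T2H64.Sync
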