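import Pool.Agent.T2H64.Sync.Det
import Pool.Agent.T2H64.Sync.Prob

/-!
# Tail bounds for bilinear forms and row sums, and the net
-/

set_option autoImplicit false
set_option linter.unusedVariables false

open Finset Real

namespace Pool.Agent.T2H64.Sync

variable {n : ℕ}

/-- the random matrix -/
noncomputable def Am (s : Fin n → Fin n → Bool) (i j : Fin n) : ℝ :=
  if i < j then (if s i j = true then (1:ℝ) else -1)
    else if j < i then (if s j i = true then (1:ℝ) else -1) else 0

lemma Am_symm (s : Fin n → Fin n → Bool) (i j : Fin n) : Am s i j = Am s j i := by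
  unfold Am
  rcases lt_trichotomy i j with h | h | h
  · simp [h, not_lt_of_gt h]
  · simp [h]
  · simp [h, not_lt_of_gt h]

lemma Am_diag (s : Fin n → Fin n → Bool) (i : Fin n) : Am s i i = 0 := by
  unfold Am
  simp

lemma Wm_eq (δ : ℝ) (s : Fin n → Fin n → Bool) (i j : Fin n) :
    Wm (Am s) (2 * δ) i j = (if i < j then xi δ (s i j) else 0) +
      (if j < i then xi δ (s j i) else 0) := by
  unfold Wm Am xi
  rcases lt_trichotomy i j with h | h | h
  · simp [h, not_lt_of_gt h, h.ne]
  · simp [h]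
  · simp [h, not_lt_of_gt h, h.ne']

lemma bil_eq (δ : ℝ) (s : Fin n → Fin n → Bool) (x y : Fin n → ℝ) :
    ∑ i, ∑ j, x i * Wm (Am s) (2 * δ) i j * y j =
      ∑ i, ∑ j, if i < j then (x i * y j + x j * y i) * xi δ (s i j) else 0 := by
  have e : ∀ i j, x i * Wm (Am s) (2 * δ) i j * y j =
      (if i < j then x i * y j * xi δ (s i j) else 0) +
      (if j < i then x i * y j * xi δ (s j i) else 0) := by
    intro i j
    rw [Wm_eq]
    split_ifs <;> ring
  simp only [e, sum_add_distrib]
  rw [sum_comm (f := fun i j => if j < i then x i * y j * xi δ (s j i) else 0),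
    ← sum_add_distrib]
  refine sum_congr rfl fun i _ => ?_
  rw [← sum_add_distrib]
  refine sum_congr rfl fun j _ => ?_
  split_ifs <;> ring

open Classical in
/-- Markov's inequality -/
lemma markov {δ : ℝ} (h0 : 0 ≤ δ) (h1 : δ ≤ 1 / 2) (a : Fin n → Fin n → ℝ) (t : ℝ) :
    ∑ s, (if t < ∑ i, ∑ j, (if i < j then a i j * xi δ (s i j) else 0) then wt n δ s else 0) ≤
      Real.exp (∑ i, ∑ j, (if i < j then a i j ^ 2 / 2 else 0) - t) := by
  have h2 := mgf_le h0 h1 a
  have h3 : ∑ s, (if t < ∑ i, ∑ j, (if i < j then a i j * xi δ (s i j) else 0)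
      then wt n δ s else 0) ≤
      ∑ s, Real.exp (-t) * (wt n δ s *
        Real.exp (∑ i, ∑ j, if i < j then a i j * xi δ (s i j) else 0)) := by
    refine sum_le_sum fun s _ => ?_
    have hw := wt_nonneg h0 h1 s
    split_ifs with h
    · have : 1 ≤ Real.exp (-t) * Real.exp (∑ i, ∑ j, if i < j then a i j * xi δ (s i j) else 0) := by
        rw [← Real.exp_add, Real.one_le_exp_iff]
        linarith
      calc wt n δ s = wt n δ s * 1 := by ring
        _ ≤ wt n δ s * (Real.exp (-t) *
          Real.exp (∑ i, ∑ j, if i < j then a i j * xi δ (s i j) else 0)) :=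
            mul_le_mul_of_nonneg_left this hw
        _ = _ := by ring
    · positivity
  refine h3.trans ?_
  rw [← mul_sum, sub_eq_add_neg, add_comm, Real.exp_add]
  exact mul_le_mul_of_nonneg_left h2 (Real.exp_pos _).le

open Classical in
lemma tail_bil {δ : ℝ} (h0 : 0 ≤ δ) (h1 : δ ≤ 1 / 2) (x y : Fin n → ℝ) {lam t R : ℝ}
    (hx : ∑ i, x i ^ 2 ≤ R) (hy : ∑ i, y i ^ 2 ≤ R) (hlam : 0 < lam) :
    ∑ s, (if t < ∑ i, ∑ j, x i * Wm (Am s) (2 * δ) i j * y j then wt n δ s else 0) ≤
      Real.exp (lam ^ 2 * R ^ 2 - lam * t) := by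
  have h2 := markov h0 h1 (fun i j => lam * (x i * y j + x j * y i)) (lam * t)
  have h3 : ∀ s : Fin n → Fin n → Bool,
      ∑ i, ∑ j, (if i < j then lam * (x i * y j + x j * y i) * xi δ (s i j) else 0) =
      lam * ∑ i, ∑ j, x i * Wm (Am s) (2 * δ) i j * y j := by
    intro s
    rw [bil_eq, mul_sum]
    refine sum_congr rfl fun i _ => ?_
    rw [mul_sum]
    refine sum_congr rfl fun j _ => ?_
    split_ifs <;> ring
  simp only [h3] at h2
  have h4 : ∀ s : Fin n → Fin n → Bool,
      (lam * t < lam * ∑ i, ∑ j, x i * Wm (Am s) (2 * δ) i j * y j) ↔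
      t < ∑ i, ∑ j, x i * Wm (Am s) (2 * δ) i j * y j := fun s =>
    mul_lt_mul_iff_right₀ hlam
  simp only [h4] at h2
  refine h2.trans ?_
  apply Real.exp_le_exp.2
  have h5 : ∑ i, ∑ j, (if i < j then (lam * (x i * y j + x j * y i)) ^ 2 / 2 else 0) ≤
      lam ^ 2 * R ^ 2 := by
    have h6 : ∀ i j, (if i < j then (lam * (x i * y j + x j * y i)) ^ 2 / 2 else 0) ≤
        (if i < j then lam ^ 2 * (x i ^ 2 * y j ^ 2) else 0) +
        (if i < j then lam ^ 2 * (x j ^ 2 * y i ^ 2) else 0) := by
      intro i j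
      split_ifs
      · nlinarith [mul_nonneg (sq_nonneg lam) (sq_nonneg (x i * y j - x j * y i))]
      · simp
    have h7 : ∑ i, ∑ j, (if i < j then lam ^ 2 * (x j ^ 2 * y i ^ 2) else 0) =
        ∑ i, ∑ j, (if j < i then lam ^ 2 * (x i ^ 2 * y j ^ 2) else 0) := by
      rw [sum_comm]
    calc ∑ i, ∑ j, (if i < j then (lam * (x i * y j + x j * y i)) ^ 2 / 2 else 0) ≤
        ∑ i, ∑ j, ((if i < j then lam ^ 2 * (x i ^ 2 * y j ^ 2) else 0) +
          (if i < j then lam ^ 2 * (x j ^ 2 * y i ^ 2) else 0)) :=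
          sum_le_sum fun i _ => sum_le_sum fun j _ => h6 i j
      _ = ∑ i, ∑ j, ((if i < j then lam ^ 2 * (x i ^ 2 * y j ^ 2) else 0) +
          (if j < i then lam ^ 2 * (x i ^ 2 * y j ^ 2) else 0)) := by
          simp only [sum_add_distrib]
          rw [h7]
      _ ≤ ∑ i, ∑ j, lam ^ 2 * (x i ^ 2 * y j ^ 2) := by
          refine sum_le_sum fun i _ => sum_le_sum fun j _ => ?_
          have : 0 ≤ lam ^ 2 * (x i ^ 2 * y j ^ 2) := by positivity
          rcases lt_trichotomy i j with h | h | h
          · simp [h, not_lt_of_gt h]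
          · simp [h]; positivity
          · simp [h, not_lt_of_gt h]
      _ = lam ^ 2 * ((∑ i, x i ^ 2) * (∑ j, y j ^ 2)) := by
          rw [sum_mul_sum, mul_sum]
          refine sum_congr rfl fun i _ => ?_
          rw [mul_sum]
      _ ≤ lam ^ 2 * (R * R) := by
          apply mul_le_mul_of_nonneg_left _ (sq_nonneg _)
          have hx0 : 0 ≤ ∑ i, x i ^ 2 := sum_nonneg fun i _ => sq_nonneg _
          have hy0 : 0 ≤ ∑ i, y i ^ 2 := sum_nonneg fun i _ => sq_nonneg _
          exact mul_le_mul hx hy hy0 (hx0.trans hx)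
      _ = lam ^ 2 * R ^ 2 := by ring
  linarith

open Classical in
/-- lower tail of a row sum -/
lemma tail_row {δ : ℝ} (h0 : 0 ≤ δ) (h1 : δ ≤ 1 / 2) (i : Fin n) {lam u : ℝ} (hlam : 0 < lam) :
    ∑ s, (if ∑ j, Am s i j < 2 * δ * (n - 1) - u then wt n δ s else 0) ≤
      Real.exp (lam ^ 2 * n / 2 - lam * u) := by
  have h2 := markov h0 h1 (fun k l => -lam * ((if k = i then 1 else 0) + (if l = i then 1 else 0)))
    (lam * u)
  have h3 : ∀ s : Fin n → Fin n → Bool,
      ∑ k, ∑ l, (if k < l then -lam * ((if k = i then 1 else 0) + (if l = i then 1 else 0)) *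
        xi δ (s k l) else 0) = lam * (2 * δ * (n - 1) - ∑ j, Am s i j) := by
    intro s
    have e1 := bil_eq δ s (fun k => if k = i then 1 else 0) (fun _ => 1)
    have e2 : ∑ k, ∑ l, (if k = i then (1 : ℝ) else 0) * Wm (Am s) (2 * δ) k l * 1 =
        ∑ j, Am s i j - 2 * δ * (n - 1) := by
      have : ∀ k, ∑ l, (if k = i then (1 : ℝ) else 0) * Wm (Am s) (2 * δ) k l * 1 =
          if k = i then ∑ l, Wm (Am s) (2 * δ) k l else 0 := by
        intro k
        split_ifs <;> simp
      simp only [this]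
      rw [Finset.sum_ite_eq' univ i]
      simp only [mem_univ, if_true]
      have h8 := row_split (Am s) (2 * δ) (fun _ => 1) i
      simp only [mul_one, sum_const, card_univ, Fintype.card_fin, nsmul_eq_mul] at h8
      rw [h8]; ring
    rw [e2] at e1
    have e3 : lam * (2 * δ * (n - 1) - ∑ j, Am s i j) =
        -lam * (∑ j, Am s i j - 2 * δ * (n - 1)) := by ring
    rw [e3, e1, mul_sum]
    refine sum_congr rfl fun k _ => ?_
    rw [mul_sum]
    refine sum_congr rfl fun l _ => ?_
    split_ifs <;> ring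
  simp only [h3] at h2
  have h4 : ∀ s : Fin n → Fin n → Bool,
      (lam * u < lam * (2 * δ * (n - 1) - ∑ j, Am s i j)) ↔
      ∑ j, Am s i j < 2 * δ * (n - 1) - u := fun s => by
    rw [mul_lt_mul_iff_right₀ hlam]
    constructor <;> intro h <;> linarith
  simp only [h4] at h2
  refine h2.trans ?_
  apply Real.exp_le_exp.2
  have h5 : ∑ k, ∑ l, (if k < l then (-lam * ((if k = i then 1 else 0) +
      (if l = i then 1 else 0))) ^ 2 / 2 else 0) ≤ lam ^ 2 * n / 2 := by
    have h6 : ∀ k l : Fin n, (if k < l then (-lam * ((if k = i then 1 else 0) +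
      (if l = i then 1 else 0))) ^ 2 / 2 else 0) =
        (if k = i then (if i < l then lam ^ 2 / 2 else 0) else 0) +
        (if l = i then (if k < i then lam ^ 2 / 2 else 0) else 0) := by
      intro k l
      by_cases hk : k = i
      · subst hk
        by_cases hl : l = k
        · subst hl; simp
        · simp only [if_true, hl, if_false, add_zero, mul_one]
          split_ifs <;> ring
      · by_cases hl : l = i
        · subst hl
          simp only [if_true, hk, if_false, zero_add, mul_one]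
          split_ifs <;> ring
        · simp [hk, hl]
    simp only [h6, sum_add_distrib]
    have e1 : ∑ k : Fin n, ∑ l : Fin n, (if k = i then (if i < l then lam ^ 2 / 2 else 0) else 0) =
        ∑ l : Fin n, (if i < l then lam ^ 2 / 2 else 0) := by
      rw [sum_comm]
      simp
    have e2 : ∑ k : Fin n, ∑ l : Fin n, (if l = i then (if k < i then lam ^ 2 / 2 else 0) else 0) =
        ∑ k : Fin n, (if k < i then lam ^ 2 / 2 else 0) := by
      simp
    rw [e1, e2, ← sum_add_distrib]
    calc ∑ l : Fin n, ((if i < l then lam ^ 2 / 2 else 0) + (if l < i then lam ^ 2 / 2 else 0)) ≤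
        ∑ l : Fin n, lam ^ 2 / 2 := by
          refine sum_le_sum fun l _ => ?_
          rcases lt_trichotomy i l with h | h | h
          · simp [h, not_lt_of_gt h]
          · simp [h]; positivity
          · simp [h, not_lt_of_gt h]
      _ = lam ^ 2 * n / 2 := by simp; ring
  linarith

end Pool.Agent.T2H64.Sync
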